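import Pool.Agent.W622.ETG.Stm

set_option autoImplicit false

/-!
FDEC: decomposition of the members in case A
-/

namespace Pool.Agent.W930.ELG

open Pool.Agent.W622.ETG Module

theorem exists_maxCone {V : Type} [AddCommGroup V] [Module (ZMod 2) V] [Finite V] {e : V} (A : Fam V)
    {Z : DSub V} (h : IsCone e A Z) : ∃ M : DSub V, Z ≤ M ∧ MaxCone e A M := by
  obtain ⟨M, h1, h2⟩ := (Set.toFinite {X : DSub V | IsCone e A X}).exists_le_maximal h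
  exact ⟨M, h1, h2.prop, fun Y hY hle => le_antisymm (h2.le_of_ge hY hle) hle⟩

theorem sum_symm {ι M : Type*} [DecidableEq ι] [AddCommGroup M] (h2 : ∀ x : M, x + x = 0)
    (f : ι → M) (s t : Finset ι) :
    ∑ i ∈ (s \ t ∪ t \ s), f i = ∑ i ∈ s, f i + ∑ i ∈ t, f i := by
  rw [Finset.sum_union disjoint_sdiff_sdiff, ← Finset.sum_inter_add_sum_sdiff s t f,
    ← Finset.sum_inter_add_sum_sdiff t s f, Finset.inter_comm t s]
  have h3 := h2 (∑ i ∈ s ∩ t, f i)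
  calc ∑ i ∈ s \ t, f i + ∑ i ∈ t \ s, f i
      = (∑ i ∈ s ∩ t, f i + ∑ i ∈ s ∩ t, f i) + (∑ i ∈ s \ t, f i + ∑ i ∈ t \ s, f i) := by
        rw [h3, zero_add]
    _ = _ := by abel

open Classical in
/-- the degenerate members -/
theorem degen (hNF : S_NF) (hA4 : S_A4) (hOM : S_OM) {V : Type} [AddCommGroup V]
    [Module (ZMod 2) V] [Finite V] {e : V} (A : Fam V) (hA : MC e A) (b : V) (hb : b ≠ 0) (ζ : Frm V)
    (hζ : ζ ∈ res A (ann b)) : ∃ N : Finset (DSub V), (∀ F ∈ N, F ∈ BB e A ∧ F ≤ ann b) ∧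
      ∃ γ ∈ ⨆ X ∈ GB e A, res A X, ζ = γ + ∑ F ∈ N, om e A F := by
  obtain ⟨-, s, hs1, hs2, hs3⟩ := hNF V e (res A (ann b)) (hA.el _ (ann_ne_top hb))
  have key : ∀ Z ∈ s, (∃ X ∈ GB e A, Z ≤ X) ∨ (Z ∈ BB e A ∧ LocBlock e A Z ∧ Z ≤ ann b) := by
    intro Z hZ
    have hcone : ∀ Z' : DSub V, IsCone e A Z' → Z ≤ Z' → ∃ X ∈ GB e A, Z ≤ X := by
      intro Z' h1 h2
      obtain ⟨M, h3, h4⟩ := exists_maxCone A h1
      exact ⟨M, ⟨Or.inl h4, hA4 V e A M hA h4⟩, h2.trans h3⟩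
    rcases hs3 Z hZ with ⟨ω, ⟨hω1, hω2, hω3⟩, rfl⟩ | ⟨p, h1, h2, h3, h4⟩
    · have hle : sp ω ≤ ann b := (mem_res'.mp hω1).2
      by_cases hc : ∃ Z' : DSub V, IsCone e A Z' ∧ sp ω ≤ Z'
      · obtain ⟨Z', h1, h2⟩ := hc
        exact Or.inl (hcone Z' h1 h2)
      · have hloc : LocBlock e A (sp ω) := by
          refine ⟨ω, ⟨(res_le _ _) hω1, hω2, ?_⟩, rfl, fun Z' h1 h2 => hc ⟨Z', h1, h2⟩⟩
          intro η hη hle2
          exact hω3 η (mem_res'.mpr ⟨hη, hle2.trans hle⟩) hle2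
        by_cases hg : Good A (sp ω)
        · exact Or.inl ⟨sp ω, ⟨Or.inr hloc, hg⟩, le_rfl⟩
        · exact Or.inr ⟨⟨Or.inr hloc, hg⟩, hloc, hle⟩
    · exact Or.inl (hcone Z ⟨p, h1, h2, h3, h4.1, fun g hg => (res_le _ _) (h4.2 g hg)⟩ le_rfl)
  have hmem : ζ ∈ ⨆ X ∈ s, res (res A (ann b)) X := hs2 ▸ hζ
  rw [iSup_subtype'] at hmem
  refine Submodule.iSup_induction (fun X : s => res (res A (ann b)) X.1) (motive := fun ζ =>
    ∃ N : Finset (DSub V), (∀ F ∈ N, F ∈ BB e A ∧ F ≤ ann b) ∧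
      ∃ γ ∈ ⨆ X ∈ GB e A, res A X, ζ = γ + ∑ F ∈ N, om e A F) hmem ?_ ?_ ?_
  · rintro ⟨Z, hZ⟩ η hη
    have hη1 : η ∈ res A Z := ⟨(res_le _ _) hη.1, hη.2⟩
    rcases key Z hZ with ⟨X, hX, hZX⟩ | ⟨h1, h2, h3⟩
    · refine ⟨∅, by simp, η, ?_, by simp⟩
      exact Submodule.mem_iSup_of_mem X (Submodule.mem_iSup_of_mem hX (res_mono A hZX hη1))
    · obtain ⟨-, -, -, h4, -⟩ := hOM V e A Z hA.ef h2
      rcases h4 η hη1 with rfl | rfl
      · exact ⟨∅, by simp, 0, Submodule.zero_mem _, by simp⟩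
      · exact ⟨{Z}, by simpa using ⟨h1, h3⟩, 0, Submodule.zero_mem _, by simp⟩
  · exact ⟨∅, by simp, 0, Submodule.zero_mem _, by simp⟩
  · rintro x y ⟨N, h1, γ, h2, h3⟩ ⟨N', h1', γ', h2', h3'⟩
    refine ⟨N \ N' ∪ N' \ N, ?_, γ + γ', Submodule.add_mem _ h2 h2', ?_⟩
    · intro F hF
      rcases Finset.mem_union.mp hF with h | h
      · exact h1 F (Finset.mem_sdiff.mp h).1
      · exact h1' F (Finset.mem_sdiff.mp h).1
    · have h5 := sum_symm (fun ω : Frm V => vadd ω) (om e A) N N'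
      rw [h3, h3']
      refine Eq.trans ?_ (congrArg (fun z => γ + γ' + z) h5).symm
      abel

theorem t_FDEC (hLU : S_LU) (hDEC : S_DEC) (hNF : S_NF) (hA4 : S_A4)
    (hOM : S_OM) : S_FDEC := by
  intro V _ _ _ e A ζ hA hζ
  have hdeg : ∀ (η : Frm V), η ∈ A → sp η ≠ ⊤ → ∃ N : Finset (DSub V),
      (N : Set (DSub V)) ⊆ BB e A ∧ sSup (N : Set (DSub V)) ≠ ⊤ ∧
        ∃ γ ∈ ⨆ X ∈ GB e A, res A X, η = γ + ∑ F ∈ N, om e A F := by
    intro η hη hne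
    obtain ⟨b, hb, hle⟩ := exists_ann hne
    obtain ⟨N, h1, γ, h2, h3⟩ := degen hNF hA4 hOM A hA.mc b hb η (mem_res'.mpr ⟨hη, hle⟩)
    refine ⟨N, fun F hF => (h1 F hF).1, ?_, γ, h2, h3⟩
    intro htop
    apply ann_ne_top hb
    rw [eq_top_iff, ← htop]
    exact sSup_le fun F hF => (h1 F hF).2
  by_cases hne : sp ζ = ⊤
  · obtain ⟨Z, hZ⟩ := hA.cone
    obtain ⟨M, -, hM⟩ := exists_maxCone A hZ
    have hgood := hA4 V e A M hA.mc hM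
    obtain ⟨π, hπ1, hπ2⟩ := (hDEC V e A M hA.mc.ef).1
      (hLU V e (res A M) (EFam.res hA.mc.ef M) (Pool.Agent.W622.ETC.Hered.res hA.mc.her M)) hgood ζ hζ
    have hM0 : M ≠ ⊥ := by
      rintro rfl
      obtain ⟨⟨p, h1, -⟩, -⟩ := hM
      rw [finrank_bot] at h1
      omega
    have hsp : sp (ζ + π) ≠ ⊤ := by
      intro h
      rw [h] at hπ2
      exact hM0 (top_disjoint.mp hπ2)
    obtain ⟨N, h1, h2, γ, h3, h4⟩ := hdeg (ζ + π) (A.add_mem hζ hπ1.1) hsp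
    refine ⟨N, h1, h2, γ + π, Submodule.add_mem _ h3 ?_, ?_⟩
    · exact Submodule.mem_iSup_of_mem M (Submodule.mem_iSup_of_mem ⟨Or.inl hM, hgood⟩ hπ1)
    · have h5 : ζ = (ζ + π) + π := (add_cancel' ζ π).symm
      rw [h5, h4]
      abel
  · exact hdeg ζ hζ hne

end Pool.Agent.W930.ELG
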